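import Mathlib

/-!
# MP_ed1a61_al, own statement: Cayley graphs

The distance of the Cayley graph is the word length; the four point condition of Gromov in a
connected graph gives slim geodesic triangles.
-/

set_option autoImplicit false

namespace SclIrr.Own

open SimpleGraph

section cayley

variable {G : Type} [Group G] (S : Set G)

theorem walk_to_list {x y : G} (p : (mulCayley S).Walk x y) :
    ∃ l : List G, l.length = p.length ∧ (∀ s ∈ l, s ∈ S ∨ s⁻¹ ∈ S) ∧ l.prod = x⁻¹ * y := by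
  induction p with
  | nil => exact ⟨[], rfl, by simp, by simp⟩
  | @cons u v w h p ih =>
    obtain ⟨l, h1, h2, h3⟩ := ih
    rw [mulCayley_adj'] at h
    obtain ⟨hne, g, hg, h4⟩ := h
    refine ⟨(u⁻¹ * v) :: l, by simp [h1], ?_, ?_⟩
    · intro s hs
      rcases List.mem_cons.1 hs with rfl | hs
      · rcases h4 with rfl | rfl
        · left
          simpa using hg
        · right
          simpa using hg
      · exact h2 s hs
    · rw [List.prod_cons, h3]
      group

theorem list_to_walk (l : List G) (hl : ∀ s ∈ l, s ∈ S ∨ s⁻¹ ∈ S) (x : G) :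
    ∃ p : (mulCayley S).Walk x (x * l.prod), p.length ≤ l.length := by
  induction l generalizing x with
  | nil => exact ⟨Walk.nil.copy rfl (by simp), by simp⟩
  | cons s l ih =>
    obtain ⟨p, hp⟩ := ih (fun s' hs' => hl s' (List.mem_cons_of_mem _ hs')) (x * s)
    by_cases h1 : s = 1
    · subst h1
      exact ⟨p.copy (by simp) (by simp), by simp; omega⟩
    · have h2 : (mulCayley S).Adj x (x * s) := by
        rw [mulCayley_adj']
        refine ⟨fun h => h1 (by simpa using h.symm), ?_⟩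
        rcases hl s List.mem_cons_self with h3 | h3
        · exact ⟨s, h3, Or.inl rfl⟩
        · exact ⟨s⁻¹, h3, Or.inr (by simp)⟩
      refine ⟨(Walk.cons h2 p).copy rfl (by simp [mul_assoc]), ?_⟩
      simp only [Walk.length_copy, Walk.length_cons, List.length_cons]
      omega

variable {S}

theorem exists_list (hS : Subgroup.closure S = ⊤) (g : G) :
    ∃ l : List G, (∀ s ∈ l, s ∈ S ∨ s⁻¹ ∈ S) ∧ l.prod = g := by
  have h1 : g ∈ Submonoid.closure (S ∪ S⁻¹) := by
    rw [← Subgroup.closure_toSubmonoid, hS]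
    trivial
  obtain ⟨l, h2, h3⟩ := Submonoid.exists_list_of_mem_closure h1
  exact ⟨l, fun s hs => h2 s hs, h3⟩

theorem cay_connected (hS : Subgroup.closure S = ⊤) : (mulCayley S).Connected := by
  rw [connected_iff_exists_forall_reachable]
  refine ⟨1, fun y => ?_⟩
  obtain ⟨l, h1, h2⟩ := exists_list hS y
  obtain ⟨p, -⟩ := list_to_walk S l h1 1
  rw [h2, one_mul] at p
  exact ⟨p⟩

theorem cay_dist (hS : Subgroup.closure S = ⊤) (x y : G) :
    (mulCayley S).dist x y = sInf {n : ℕ | ∃ l : List G, l.length = n ∧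
      (∀ s ∈ l, s ∈ S ∨ s⁻¹ ∈ S) ∧ l.prod = x⁻¹ * y} := by
  apply le_antisymm
  · obtain ⟨l0, h1, h2⟩ := exists_list hS (x⁻¹ * y)
    obtain ⟨l, hl, h3, h4⟩ := Nat.sInf_mem (s := {n : ℕ | ∃ l : List G, l.length = n ∧
      (∀ s ∈ l, s ∈ S ∨ s⁻¹ ∈ S) ∧ l.prod = x⁻¹ * y}) ⟨l0.length, l0, rfl, h1, h2⟩
    obtain ⟨p, hp⟩ := list_to_walk S l h3 x
    have h5 : x * l.prod = y := by rw [h4, mul_inv_cancel_left]
    rw [← hl]
    calc (mulCayley S).dist x y = (mulCayley S).dist x (x * l.prod) := by rw [h5]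
      _ ≤ p.length := dist_le p
      _ ≤ l.length := hp
  · obtain ⟨p, hp⟩ := (cay_connected hS).exists_walk_length_eq_dist x y
    obtain ⟨l, h1, h2, h3⟩ := walk_to_list S p
    exact Nat.sInf_le ⟨l, by rw [h1, hp], h2, h3⟩

end cayley

section graph

variable {V : Type} {Γ : SimpleGraph V}

theorem geod {x y : V} (hc : Γ.Connected) (p : Γ.Walk x y) (hp : p.length = Γ.dist x y) {i : ℕ}
    (hi : i ≤ p.length) :
    Γ.dist x (p.getVert i) = i ∧ Γ.dist (p.getVert i) y + i = Γ.dist x y := by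
  have h1 : Γ.dist x (p.getVert i) ≤ i := by
    have h := dist_le (p.take i)
    rw [Walk.take_length] at h
    exact h.trans (min_le_left _ _)
  have h2 : Γ.dist (p.getVert i) y ≤ p.length - i := by
    have h := dist_le (p.drop i)
    rwa [Walk.drop_length] at h
  have h3 := hc.dist_triangle (u := x) (v := p.getVert i) (w := y)
  omega

/-- the corner at `x` -/
theorem slim_corner {δ : ℕ} (hc : Γ.Connected)
    (h4 : ∀ x y z w : V, Γ.dist x z + Γ.dist y w ≤
      max (Γ.dist x y + Γ.dist z w) (Γ.dist x w + Γ.dist y z) + 2 * δ)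
    {x y z v : V} (hv : Γ.dist x v + Γ.dist v y = Γ.dist x y)
    (h : 2 * Γ.dist x v + Γ.dist y z ≤ Γ.dist x y + Γ.dist x z)
    {r : Γ.Walk z x} (hr : r.length = Γ.dist z x) :
    ∃ w ∈ r.support, Γ.dist v w ≤ 4 * δ := by
  have h1 := hc.dist_triangle (u := x) (v := z) (w := y)
  have h2 := Γ.dist_comm (u := z) (v := y)
  have h3 := Γ.dist_comm (u := z) (v := x)
  obtain ⟨h5, h6⟩ := geod hc r hr (i := r.length - Γ.dist x v) (by omega)
  set u := r.getVert (r.length - Γ.dist x v) with hu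
  have h7 := h4 x v y z
  have h8 := h4 x u z v
  have h9 := Γ.dist_comm (u := u) (v := v)
  have h10 := Γ.dist_comm (u := u) (v := x)
  have h11 := Γ.dist_comm (u := u) (v := z)
  have h12 := Γ.dist_comm (u := v) (v := z)
  refine ⟨u, r.getVert_mem_support _, ?_⟩
  omega

theorem slim_of_four {δ : ℕ} (hc : Γ.Connected)
    (h4 : ∀ x y z w : V, Γ.dist x z + Γ.dist y w ≤
      max (Γ.dist x y + Γ.dist z w) (Γ.dist x w + Γ.dist y z) + 2 * δ)
    {x y z v : V} {p : Γ.Walk x y} {q : Γ.Walk y z} {r : Γ.Walk z x}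
    (hp : p.length = Γ.dist x y) (hq : q.length = Γ.dist y z) (hr : r.length = Γ.dist z x)
    (hv : v ∈ p.support) : ∃ w, (w ∈ q.support ∨ w ∈ r.support) ∧ Γ.dist v w ≤ 4 * δ := by
  obtain ⟨i, rfl, hi⟩ := Walk.mem_support_iff_exists_getVert.1 hv
  obtain ⟨h5, h6⟩ := geod hc p hp hi
  set v := p.getVert i with hvd
  rcases le_or_gt (2 * Γ.dist x v + Γ.dist y z) (Γ.dist x y + Γ.dist x z) with h | h
  · obtain ⟨w, hw1, hw2⟩ := slim_corner hc h4 (by omega) h hr
    exact ⟨w, Or.inr hw1, hw2⟩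
  · have h7 := Γ.dist_comm (u := v) (v := y)
    have h8 := Γ.dist_comm (u := v) (v := x)
    have h9 := Γ.dist_comm (u := x) (v := y)
    have h10 := Γ.dist_comm (u := z) (v := y)
    have hq' : q.reverse.length = Γ.dist z y := by
      rw [Walk.length_reverse, hq, h10]
    obtain ⟨w, hw1, hw2⟩ := slim_corner (x := y) (y := x) (z := z) (v := v) hc h4 (by omega)
      (by omega) hq'
    rw [Walk.support_reverse, List.mem_reverse] at hw1
    exact ⟨w, Or.inl hw1, hw2⟩

end graph

end SclIrr.Own
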