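import Pool.Agent.Lib.MP_ed1a61_al_Z.Tends
import Pool.Agent.Lib.MP_ed1a61_al_Z.GRel
import Pool.Agent.Lib.MP_ed1a61_al_Q.Glue

/-!
# MP_ed1a61_al, own statement: the limit of `cl (h ^ n) / n` exists and its value
-/

set_option autoImplicit false

namespace SclIrr.Own

open Filter Topology Pool.MP_ed1a61_al.Fill

variable {H : Type} [Group H]

private theorem limit_aux {a : ℕ → ℕ} {lam C' : ℝ} (hlow : ∀ n : ℕ, lam * n - C' ≤ a n)
    (hup : ∀ ε : ℝ, 0 < ε → ∃ C : ℝ, ∀ n : ℕ, (a n : ℝ) ≤ (lam + ε) * n + C) :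
    Tendsto (fun n : ℕ => (a n : ℝ) / (n : ℝ)) atTop (𝓝 lam) := by
  rw [Metric.tendsto_atTop]
  intro δ hδ
  obtain ⟨C, hC⟩ := hup (δ / 2) (half_pos hδ)
  obtain ⟨N, hN⟩ := exists_nat_gt (2 * (|C| + |C'|) / δ)
  refine ⟨N + 1, fun n hn => ?_⟩
  have hn0 : 0 < n := by omega
  have hnR : (0 : ℝ) < n := by exact_mod_cast hn0
  have hNn : (N : ℝ) ≤ n := by exact_mod_cast (by omega : N ≤ n)
  have h1 := hlow n
  have h2 := hC n
  have h3 : 2 * (|C| + |C'|) < δ * n := by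
    rw [div_lt_iff₀ hδ] at hN
    nlinarith
  have h4 := le_abs_self C
  have h4' := le_abs_self C'
  have h5 := abs_nonneg C
  have h5' := abs_nonneg C'
  rw [Real.dist_eq, abs_lt]
  constructor
  · have h6 : lam - δ < (a n : ℝ) / n := by
      rw [lt_div_iff₀ hnR]
      nlinarith
    linarith
  · have h6 : (a n : ℝ) / n < lam + δ := by
      rw [div_lt_iff₀ hnR]
      nlinarith
    linarith

private theorem limit_cl {g : H} (hg : g ∈ commutator H) (n : ℕ) :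
    CL (sInf {k : ℕ | CL k (g ^ n)}) (g ^ n) := by
  obtain ⟨k, hk⟩ := exists_cl (pow_mem hg n)
  exact Nat.sInf_mem (s := {k : ℕ | CL k (g ^ n)}) ⟨k, hk⟩

theorem tendsto_cl {g : H} (hg : g ∈ commutator H) {lam C' : ℝ} (hsc : Sc [g] lam)
    (hlow : ∀ n k : ℕ, CL k (g ^ n) → lam * n - C' ≤ k) :
    Tendsto (fun n : ℕ => ((sInf {k : ℕ | CL k (g ^ n)} : ℕ) : ℝ) / (n : ℝ)) atTop (𝓝 lam) := by
  refine limit_aux (C' := C') (fun n => hlow n _ (limit_cl hg n)) fun ε hε => ?_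
  obtain ⟨m, hm, C, hC⟩ := hsc ε hε
  refine ⟨C + |lam + ε| * m + ∑ r ∈ Finset.range m, ((sInf {k : ℕ | CL k (g ^ r)} : ℕ) : ℝ),
    fun n => ?_⟩
  obtain ⟨k, hk1, hk2⟩ := hC (n / m)
  rw [List.map_cons, List.map_nil, List.prod_cons, List.prod_nil, mul_one] at hk1
  have h1 : CL (k + sInf {k : ℕ | CL k (g ^ (n % m))}) (g ^ n) := by
    have h2 := hk1.mul (limit_cl hg (n % m))
    rwa [← pow_add, Nat.div_add_mod] at h2
  have h3 : sInf {k : ℕ | CL k (g ^ n)} ≤ k + sInf {k : ℕ | CL k (g ^ (n % m))} :=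
    Nat.sInf_le h1
  have h4 : ((sInf {k : ℕ | CL k (g ^ n)} : ℕ) : ℝ)
      ≤ k + ((sInf {k : ℕ | CL k (g ^ (n % m))} : ℕ) : ℝ) := by exact_mod_cast h3
  have h5 : ((sInf {k : ℕ | CL k (g ^ (n % m))} : ℕ) : ℝ)
      ≤ ∑ r ∈ Finset.range m, ((sInf {k : ℕ | CL k (g ^ r)} : ℕ) : ℝ) :=
    Finset.single_le_sum (f := fun r => ((sInf {k : ℕ | CL k (g ^ r)} : ℕ) : ℝ))
      (fun i _ => Nat.cast_nonneg _) (Finset.mem_range.2 (Nat.mod_lt n hm))
  have h6 : (n : ℝ) = (m * (n / m) : ℕ) + (n % m : ℕ) := by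
    exact_mod_cast (Nat.div_add_mod n m).symm
  have h7 : ((n % m : ℕ) : ℝ) ≤ m := by exact_mod_cast (Nat.mod_lt n hm).le
  have h8 : (0 : ℝ) ≤ ((n % m : ℕ) : ℝ) := Nat.cast_nonneg _
  have h9 : -(|lam + ε| * m) ≤ (lam + ε) * ((n % m : ℕ) : ℝ) := by
    have h10 := neg_abs_le (lam + ε)
    have h11 := abs_nonneg (lam + ε)
    nlinarith
  have h12 : (lam + ε) * (n : ℝ)
      = (lam + ε) * (m * (n / m) : ℕ) + (lam + ε) * ((n % m : ℕ) : ℝ) := by
    rw [← mul_add, ← h6]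
  rw [h12]
  linarith

/-- The element `(a s b s) ^ 24` of the group `SclIrr.G`: it lies in the commutator subgroup and
its stable commutator length is `12 + 3 (17 - √145) / 8000`. -/
theorem scl_G : (gam X.a * gam X.s * gam X.b * gam X.s) ^ 24 ∈ commutator G ∧
    Tendsto (fun n : ℕ => ((sInf {k : ℕ | CL k
      (((gam X.a * gam X.s * gam X.b * gam X.s) ^ 24) ^ n)} : ℕ) : ℝ) / (n : ℝ)) atTop
      (𝓝 (12 + 3 * (17 - √145) / 8000)) := by
  have ha := Z.ga
  have hb := Z.gb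
  have hs := N.rel_s
  have hx := Z.gx
  have h24 := U.g24 ha hb hs
  refine ⟨h24, ?_⟩
  have h1 := U.upper ha hb hs hx
  have h2 : Sc [(gam X.a * gam X.s * gam X.b * gam X.s) ^ 24]
      (24 * (1 / 2 + 3 / 12000 * (1 - W.rho))) := by
    have h3 : ∀ n : ℕ, Sc (List.replicate n (gam X.a * gam X.s * gam X.b * gam X.s))
        (n * (1 / 2 + 3 / 12000 * (1 - W.rho))) := by
      intro n
      induction n with
      | zero => simpa using sc_nil
      | succ n ih =>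
        have h4 := h1.append ih
        rw [List.singleton_append, ← List.replicate_succ] at h4
        refine h4.mono (le_of_eq ?_)
        push_cast
        ring
    have h5 := h3 24
    rw [← List.append_nil (List.replicate 24 (gam X.a * gam X.s * gam X.b * gam X.s)),
      ← sc_pow_iff] at h5
    exact_mod_cast h5
  obtain ⟨C, hC⟩ := Q.glue.2.2
  have h6 : (24 * (1 / 2 + 3 / 12000 * (1 - W.rho)) : ℝ) = 12 + 3 * (17 - √145) / 8000 := by
    unfold W.rho
    ring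
  rw [← h6]
  refine tendsto_cl (C' := C / 4) h24 h2 fun n k hk => ?_
  rw [← pow_mul] at hk
  obtain ⟨l, hl, hc, hp⟩ := hk
  have h4 := hC (24 * n) l hc hp
  rw [hl] at h4
  push_cast at h4
  linarith

theorem irrational_value : Irrational (12 + 3 * (17 - √145) / 8000) := by
  have h6 : (12 + 3 * (17 - √145) / 8000 : ℝ) = ((12 + 6 / 1000 : ℚ) : ℝ) -
      ((6 / 1000 : ℚ) : ℝ) * W.rho := by
    unfold W.rho
    push_cast
    ring
  rw [h6]
  exact (W.rho_irrational.ratCast_mul (by norm_num)).ratCast_sub _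

end SclIrr.Own
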